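import Pool.Agent.Lib.MP_60c5b4_pr.H.Defs

/-!
The massive Dirichlet Gaussian free field on `Ω`, by its finite-dimensional laws.

For a test function `φ`, the number `∫ φ (-Laplacian + m ^ 2)⁻¹ φ` (Dirichlet boundary condition)
is the supremum over test functions `u` of `∫ 2 φ u - |∇ u| ^ 2 - m ^ 2 u ^ 2`.
-/

namespace Pool.Agent.Lib.MP_60c5b4_pr.G

open MeasureTheory Pool.Agent.Lib.MP_60c5b4_pr.H

/-- The functional `∫ 2 φ u - (∂ₓ u) ^ 2 - (∂_y u) ^ 2 - m ^ 2 u ^ 2`. -/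
noncomputable def act (m : ℝ) (φ u : ℂ → ℝ) : ℝ :=
  ∫ z, (2 * φ z * u z - fderiv ℝ u z 1 ^ 2 - fderiv ℝ u z Complex.I ^ 2 - m ^ 2 * u z ^ 2)

/-- The Green form `∫ φ (-Laplacian + m ^ 2)⁻¹ φ` of `Ω` with Dirichlet boundary condition. -/
noncomputable def greenForm (Ω : Set ℂ) (m : ℝ) (φ : ℂ → ℝ) : ℝ :=
  sSup {x | ∃ u, IsTest Ω u ∧ x = act m φ u}

/-- `ν` is the law of `√κ` times the Dirichlet Gaussian free field of mass `m` on `Ω`, shifted by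
the deterministic functional `a` (no shift: `a = 0`): a probability law under which the pairings
`ev φ` are jointly Gaussian with means `a φ` and covariance `κ (-Laplacian + m ^ 2)⁻¹`. -/
def IsGFF (Ω : Set ℂ) (κ m : ℝ) (a : (ℂ → ℝ) → ℝ) {S : Type} [MeasurableSpace S]
    (ev : (ℂ → ℝ) → S → ℝ) (ν : Measure S) : Prop :=
  IsProbabilityMeasure ν ∧ ∀ (k : ℕ) (φ : Fin k → ℂ → ℝ) (t : Fin k → ℝ), (∀ i, IsTest Ω (φ i)) →
    ∫ s, Complex.exp (Complex.I * (∑ i, t i * ev (φ i) s : ℝ)) ∂ν =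
      Complex.exp (Complex.I * (∑ i, t i * a (φ i) : ℝ) -
        (κ * greenForm Ω m (fun z => ∑ i, t i * φ i z) / 2 : ℝ))

end Pool.Agent.Lib.MP_60c5b4_pr.G
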