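import Pool.Agent.Lib.MP_60c5b4_pr.H.Main

/-!
The separating observables on the side of the drifted model, with their supports and masses.
-/

namespace Pool.Agent.Lib.MP_60c5b4_pr.G

open Pool.Agent.Lib.MP_60c5b4_pr.H Finset Filter Topology Complex
open scoped ContDiff

/-- The comparison with the row observable, for a profile that is a smooth step. -/
theorem obs_step {L : ℝ} (hL : 1 ≤ L) : ∃ (Φ : ℝ → ℝ) (C₁ C : ℝ), Obs.Step Φ (-(2 * L)) (2 * L) ∧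
    0 ≤ C₁ ∧ 0 ≤ C ∧ ∀ lam r e : ℝ, lam ≠ 0 → 0 < r → 0 < e → Key.ObsAt L Φ C₁ C lam r e := by
  obtain ⟨Φ, hΦ, near, far⟩ := Obs.exists_profile hL
  obtain ⟨M, hM0, hM1, hM2, hM3⟩ := hΦ.bounds
  obtain ⟨M', hN0, hN1, -, hN3⟩ := Obs.step_smooth.bounds
  have hπ := Real.pi_pos
  have hL0 : 0 < L := by linarith
  set C₁ : ℝ := 2 * Real.pi * M + 2 with hC₁
  have hC0 : 0 ≤ C₁ := by positivity
  refine ⟨Φ, C₁, 4 * M' + 56 * M' * L * C₁ + 14 * L * (2 * Real.pi * M), hΦ, hC0, by positivity,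
    fun lam r e hlam hr he x₀ y₀ => ?_⟩
  intro δ W B a z l R s hδ hn hν hz hl hG hW hR hs hv
  obtain ⟨n, hn'⟩ : ∃ n, n = r / δ := ⟨_, rfl⟩
  obtain ⟨ν, hν'⟩ : ∃ ν, ν = e / δ := ⟨_, rfl⟩
  obtain ⟨α, hα⟩ : ∃ α : ℝ, α = z.1 + 2 / 3 - x₀ / δ := ⟨_, rfl⟩
  obtain ⟨β, hβ⟩ : ∃ β : ℝ, β = z.2 + 2 / 3 - y₀ / δ := ⟨_, rfl⟩
  have a1 : -1 / 3 < α ∧ α ≤ 2 / 3 := by
    rw [hα, hz]
    exact ⟨by linarith [Int.lt_floor_add_one (x₀ / δ)], by linarith [Int.floor_le (x₀ / δ)]⟩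
  have a2 : -4 / 3 < β ∧ β ≤ -1 / 3 := by
    rw [hβ, hz]
    push_cast
    exact ⟨by linarith [Int.lt_floor_add_one (y₀ / δ)], by linarith [Int.floor_le (y₀ / δ)]⟩
  have hP := fun (K : ℕ) h1 h2 => Obs.pairing_eq (W := W) (B := B) (a := a) (l := l) (K := K)
    hΦ hlam hr he hδ hα hβ (abs_le.2 ⟨by linarith [a1.1], by linarith [a1.2]⟩)
    (by linarith [a2.2]) h1 h2
  rw [← hn'] at hn hl hv hP ⊢
  rw [← hν'] at hν hv hP ⊢
  have hn0 : 0 < n := by linarith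
  have hν0 : 0 < ν := by linarith
  have hLn : 3 ≤ L * n := by nlinarith
  have l1 : 3 * L * n ≤ l := hl ▸ Nat.le_ceil _
  have l2 : (l : ℝ) < 3 * L * n + 1 := hl ▸ Nat.ceil_lt_add_one (by positivity)
  have l3 : (4 * l + 1 : ℝ) ≤ 14 * L * n := by linarith
  have k1 : ((⌊ν + 2⌋₊ + 1 : ℕ) : ℝ) ≤ ν + 3 := by
    push_cast
    linarith [Nat.floor_le (show 0 ≤ ν + 2 by linarith)]
  have k2 : ν + 2 < ((⌊ν + 2⌋₊ + 1 : ℕ) : ℝ) := by
    push_cast
    exact Nat.lt_floor_add_one _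
  have hA := Obs.adm (α := α - 1 / 2) hL hΦ near far hM0 hM2 hn
    (abs_le.2 ⟨by linarith [a1.1], by linarith [a1.2]⟩) l1
  obtain ⟨w1, w2⟩ := Obs.weights (β := β) hN0 hN1 hN3 hν (by linarith [a2.2])
    (by linarith [a2.1]) k1
  have hθ : ∀ x : ℤ, |-(2 * Real.pi) * (1 / n * deriv Φ ((x + α) / n))| ≤ C₁ / n := fun x => by
    rw [abs_mul, abs_neg, abs_of_pos (by positivity : 0 < 2 * Real.pi), abs_mul,
      abs_of_pos (by positivity : 0 < 1 / n), le_div_iff₀ hn0,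
      show 2 * Real.pi * (1 / n * |deriv Φ ((x + α) / n)|) * n =
        2 * Real.pi * |deriv Φ ((x + α) / n)| by field_simp]
    have := mul_le_mul_of_nonneg_left (hM1 ((x + α) / n)) (by positivity : 0 ≤ 2 * Real.pi)
    linarith
  obtain ⟨u, hu, hb⟩ := Obs.core hG hW hR hs hθ (ε := 2 * Real.pi * (M * (1 / n) ^ 3))
    (Θ := fun x => 2 * Real.pi * Φ ((x + (α - 1 / 2)) / n)) (fun x => by
      have h1 := mul_le_mul_of_nonneg_left (hM3 ((x + α) / n) (1 / n) (by positivity))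
        (by positivity : 0 ≤ 2 * Real.pi)
      refine le_of_eq_of_le ?_ h1
      rw [← abs_of_pos (by positivity : 0 < 2 * Real.pi), ← abs_mul,
        abs_of_pos (by positivity : 0 < 2 * Real.pi),
        show (((x + 1 : ℤ) : ℝ) + (α - 1 / 2)) / n = (x + α) / n + 1 / n / 2 by
          push_cast; ring,
        show ((x : ℝ) + (α - 1 / 2)) / n = (x + α) / n - 1 / n / 2 by ring]
      congr 1
      ring)
    (hA.left _ (by omega)) (hA.right _ (by omega)) w1 w2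
    (fun k hk => hG.dmean_abs_le _ hs (hv k _ (by
      have h1 : ((k + 1 : ℕ) : ℝ) ≤ ((⌊ν + 2⌋₊ + 1 : ℕ) : ℝ) :=
        Nat.cast_le.2 (Finset.mem_range.1 hk)
      push_cast at h1 k1
      linarith) hθ))
    (hP _ (by linarith) (by linarith [a2.1]))
  refine ⟨_, u, hA, hu, hb.trans ?_⟩
  have hR0 : 0 ≤ R := (Nat.cast_nonneg _).trans (hR 0)
  have b1 : 4 * M' / ν ^ 2 * ((4 * l + 1) * (C₁ / n * R)) ≤ 56 * M' * L * C₁ * (R / ν ^ 2) := by
    refine (mul_le_mul_of_nonneg_left (mul_le_mul_of_nonneg_right l3 (by positivity))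
      (by positivity)).trans (le_of_eq ?_)
    field_simp
    ring
  have b2 : (4 * l + 1) * (2 * Real.pi * (M * (1 / n) ^ 3) * R) ≤
      14 * L * (2 * Real.pi * M) * (R / n ^ 2) := by
    refine (mul_le_mul_of_nonneg_right l3 (by positivity)).trans (le_of_eq ?_)
    field_simp
  have p1 : 0 ≤ R / n ^ 2 := by positivity
  have p2 : 0 ≤ R / ν ^ 2 := by positivity
  have q1 : 0 ≤ 4 * M' := by positivity
  have q2 : 0 ≤ 56 * M' * L * C₁ := by positivity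
  have q3 : 0 ≤ 14 * L * (2 * Real.pi * M) := by positivity
  generalize 4 * M' = c1 at *
  generalize 56 * M' * L * C₁ = c2 at *
  generalize 14 * L * (2 * Real.pi * M) = c3 at *
  nlinarith [mul_nonneg q1 p1, mul_nonneg q1 p2, mul_nonneg q2 hs, mul_nonneg q2 p1,
    mul_nonneg q3 hs, mul_nonneg q3 p2]

section mass
open MeasureTheory

theorem step_mass {f : ℝ → ℝ} {a b : ℝ} (h : Obs.Step f a b) {r : ℝ} (hr : 0 < r) (x₀ : ℝ) :
    ∫ x, deriv f ((x - x₀) / r) = r := by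
  have c1 : HasCompactSupport (deriv f) :=
    HasCompactSupport.intro isCompact_Icc fun _ hs => h.deriv_zero hs
  have h1 : ∫ x, deriv f x = 1 - 0 := integral_of_hasDerivAt_of_tendsto
    (fun x => (Obs.cd_diff h.cd x).hasDerivAt)
    ((Obs.cd_deriv h.cd).continuous.integrable_of_hasCompactSupport c1)
    (tendsto_const_nhds.congr' ((eventually_le_atBot a).mono fun s hs => (h.left s hs).symm))
    (tendsto_const_nhds.congr' ((eventually_ge_atTop b).mono fun s hs => (h.right s hs).symm))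
  rw [integral_sub_right_eq_self (fun x => deriv f (x / r)) x₀, Measure.integral_comp_div, h1,
    abs_of_pos hr]
  simp

/-- The skew coordinates as a linear equivalence. -/
noncomputable def skew : ℂ ≃ₗ[ℝ] ℝ × ℝ where
  toFun z := (xi z, ups z)
  invFun p := ⟨(p.1 + p.2) / 2, (p.2 - p.1) / (2 * Real.sqrt 3)⟩
  map_add' z w := by
    simp only [xi, ups, add_re, add_im, Prod.mk_add_mk, Prod.mk.injEq]
    constructor <;> ring
  map_smul' c z := by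
    simp only [xi, ups, smul_re, smul_im, smul_eq_mul, RingHom.id_apply, Prod.smul_mk,
      Prod.mk.injEq]
    constructor <;> ring
  left_inv z := by
    apply Complex.ext <;> simp only [xi, ups] <;> field_simp <;> ring
  right_inv p := by
    apply Prod.ext <;> simp only [xi, ups] <;> field_simp <;> ring

theorem skew_integral : ∃ c > (0 : ℝ), ∀ F G : ℝ → ℝ,
    ∫ z : ℂ, F (xi z) * G (ups z) = c * ((∫ x, F x) * ∫ y, G y) := by
  have h1 := Measure.isAddLeftInvariant_eq_smul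
    ((volume : Measure ℂ).map skew.toContinuousLinearEquiv) (volume : Measure (ℝ × ℝ))
  have h2 := Measure.addHaarScalarFactor_pos_of_isAddHaarMeasure
    ((volume : Measure ℂ).map skew.toContinuousLinearEquiv) (volume : Measure (ℝ × ℝ))
  generalize Measure.addHaarScalarFactor ((volume : Measure ℂ).map skew.toContinuousLinearEquiv)
    (volume : Measure (ℝ × ℝ)) = c at h1 h2
  refine ⟨c, h2, fun F G => ?_⟩
  have h3 := skew.toContinuousLinearEquiv.toHomeomorph.measurableEmbedding.integral_map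
    (μ := volume) fun p : ℝ × ℝ => F p.1 * G p.2
  rw [ContinuousLinearEquiv.coe_toHomeomorph, h1, integral_smul_nnreal_measure,
    Measure.volume_eq_prod, integral_prod_mul] at h3
  exact h3.symm

theorem tst_mass {lam : ℝ} (hlam : lam ≠ 0) : ∃ q ≠ (0 : ℝ), ∀ (Φ : ℝ → ℝ) (a b r e x₀ y₀ : ℝ),
    Obs.Step Φ a b → 0 < r → 0 < e → ∫ z, tst Φ lam r e x₀ y₀ z = q := by
  obtain ⟨c, hc, h⟩ := skew_integral
  have hπ := Real.pi_pos
  refine ⟨-(2 * Real.pi / lam) * c, mul_ne_zero (neg_ne_zero.2 (by positivity)) hc.ne',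
    fun Φ a b r e x₀ y₀ hΦ hr he => ?_⟩
  simp only [tst, mul_assoc _ (deriv Φ _)]
  rw [integral_const_mul, h (fun x => deriv Φ ((x - x₀) / r))
    fun y => deriv Real.smoothTransition ((y - y₀) / e), step_mass hΦ hr,
    step_mass Obs.step_smooth he]
  field_simp

end mass

theorem row_all : RowStmt :=
  row sign det_formula ker (apriori maxp energy bdry) born_bound (param born_bound)
    (far born_bound) tool (core (pert tool) cyc (soft tool cyc) (mode cyc)) green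

open Key in
theorem key_drift {Ω : Set ℂ} (hΩ : IsOpen Ω) (hΩb : Bornology.IsBounded Ω) {Δ : ℂ → ℂ}
    (hΔ : ContinuousOn Δ Ω) (hΔb : ∃ M, ∀ z ∈ Ω, ‖Δ z‖ ≤ M) (hΔ0 : ∃ z ∈ Ω, Δ z ≠ 0)
    {c : ℂ → Fin 3 → ℝ} (hc : ∀ z ∈ Ω, c z 0 + c z 1 + c z 2 = 0 ∧
      Δ z = (c z 0 + c z 1 * tau + c z 2 * tau ^ 2) / 3)
    {δ : ℕ → ℝ} {V : ℕ → Finset Pt} {f : ℕ → Pt} (hA : Approximates Ω δ V)
    (hS : ∀ n, SimplyConn (V n) ∧ IsRoot (V n) (f n))
    (hex : ∀ᶠ n in atTop, ∃ m, IsMatching (whites (V n)) (blacks (V n) (f n)) m)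
    {lam : ℝ} (hlam : lam ≠ 0) :
    ∃ (z₀ : ℂ) (ρ q : ℝ), 0 < ρ ∧ Metric.closedBall z₀ (2 * ρ) ⊆ Ω ∧ q ≠ 0 ∧
      ∀ η > (0 : ℝ), ∃ (k : ℕ) (φ : Fin k → ℂ → ℝ) (m₁ v : ℝ),
        (∀ i, IsTest (Metric.closedBall z₀ ρ) (φ i) ∧ ∫ z, φ i z = q) ∧ 0 < k ∧ 0 < m₁ ∧
        v ≤ η * (k * m₁) ^ 2 ∧
        ∀ᶠ n in atTop, ∀ W B a T, W = whites (V n) → B = blacks (V n) (f n) → a = ewt c (δ n) →
          T = (fun i => chr lam (δ n) W B a (φ i)) →
          (∀ i, m₁ ≤ ‖cmean W B a (T i)‖) ∧ ∑ i, ∑ j, ‖ccov W B a (T i) (T j)‖ ≤ v := by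
  obtain ⟨M, hM⟩ := hΔb
  obtain ⟨z₀, hz₀, hΔ0⟩ := hΔ0
  obtain ⟨L, hL, hR⟩ := row_all
  obtain ⟨Φ, C₁, CO, hΦ, hC₁, hCO, hO⟩ := obs_step hL
  obtain ⟨q, hq0, hq⟩ := tst_mass hlam
  have hΔp : 0 < ‖Δ z₀‖ := norm_pos_iff.2 hΔ0
  obtain ⟨ρ₁, hρ₁, hball⟩ : ∃ ρ₁ > (0 : ℝ), ∀ z, ‖z - z₀‖ < ρ₁ →
      z ∈ Ω ∧ ‖Δ z - Δ z₀‖ ≤ ‖Δ z₀‖ / 2 := by
    have h1 := (hΔ.continuousAt (hΩ.mem_nhds hz₀)).eventually
      (Metric.closedBall_mem_nhds (Δ z₀) (half_pos hΔp))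
    obtain ⟨ρ₁, h2, h3⟩ := Metric.eventually_nhds_iff.1 (h1.and (hΩ.mem_nhds hz₀))
    refine ⟨ρ₁, h2, fun z hz => ?_⟩
    have := h3 (y := z) (by rwa [dist_eq_norm])
    exact ⟨this.2, by rw [← dist_eq_norm]; exact this.1⟩
  obtain ⟨ρ, hρ'⟩ : ∃ ρ, ρ = ρ₁ / 25 := ⟨_, rfl⟩
  have hρ : 0 < ρ := by rw [hρ']; positivity
  have hQ : ∀ z ∈ sbox (xi z₀) (ups z₀) (12 * ρ), z ∈ Ω ∧ ‖Δ z - Δ z₀‖ ≤ ‖Δ z₀‖ / 2 :=
    fun z hz => hball z (by linarith [norm_le_skew z z₀ hz.1 hz.2])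
  refine ⟨z₀, 4 * ρ, q, by positivity, fun z hz => (hball z ?_).1, hq0, fun η hη => ?_⟩
  · linarith [mem_closedBall_iff_norm.1 hz]
  obtain ⟨D₁, hD₁⟩ := hΩb.subset_closedBall z₀
  have hD₁0 : 0 ≤ D₁ := by simpa using hD₁ hz₀
  have hb : Ω ⊆ sbox (xi z₀) (ups z₀) (3 * D₁) := fun z hz => by
    have h1 := mem_closedBall_iff_norm.1 (hD₁ hz)
    exact ⟨(skew_le_norm z z₀).1.trans (by linarith), (skew_le_norm z z₀).2.trans (by linarith)⟩
  have hM0 : 0 ≤ M := (norm_nonneg _).trans (hM z₀ hz₀)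
  have hloc := loc_eventually (M := 3 * M) hρ
    (fun z hz => ⟨(hc z hz).1, c_bound (hM z hz) (hc z hz).1 (hc z hz).2⟩) hb
    (fun z hz => (hQ z hz).1) hA hS hex
  obtain ⟨c₀, hc₀, C, hC, r₀, hr₀, n₀, hrow⟩ := hR (3 * M * ρ) (2 * (3 * D₁ + ρ) / ρ) C₁
  obtain ⟨k, hk, hkr, hk1, hk2⟩ := exists_k (c := c₀ * (3 * ‖Δ z₀‖) * (ρ / (160 * L)))
    (E := C + 2) (A := 6 + 9 * C) (B := 9 * C) (by positivity) hη hr₀ (by positivity)
    (by positivity)
  have hk' : (1 : ℝ) ≤ k := by exact_mod_cast hk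
  obtain ⟨r, hr⟩ : ∃ r, r = ρ / (160 * L * k) := ⟨_, rfl⟩
  have hr0 : 0 < r := by rw [hr]; positivity
  have hr' : ρ = 160 * L * k * r := by rw [hr]; field_simp
  obtain ⟨ε, hε⟩ : ∃ ε : ℝ, ε = 1 / k ^ 2 := ⟨_, rfl⟩
  have hε0 : 0 < ε := by rw [hε]; positivity
  have hε1 : ε ≤ 1 / k := by
    rw [hε]; exact one_div_le_one_div_of_le (by linarith) (by nlinarith)
  obtain ⟨e, he0, he1, he2, he3⟩ := exists_height (A := C * (4 * L * C₁) ^ 2) (B := L * r)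
    (s := ε / (2 * (CO + 1))) (by positivity) (by positivity) (by positivity) hρ
  have hs2 : CO * (ε / (2 * (CO + 1))) ≤ ε / 2 := by
    rw [← mul_div_assoc, div_le_div_iff₀ (by positivity) (by positivity)]; nlinarith
  have hobs : ObsAt L Φ C₁ CO lam r e := hO lam r e hlam hr0 he0
  have hD : 0 ≤ 2 * (3 * D₁ + ρ) / ρ := by positivity
  obtain ⟨E, -⟩ : ∃ E : Fin (k * k) ≃ Fin k × Fin k, True := ⟨finProdFinEquiv.symm, trivial⟩
  have hsum : ∀ g : Fin k × Fin k → Fin k × Fin k → ℝ,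
      ∑ i, ∑ j, g (E i) (E j) = ∑ i, ∑ j, g i j := fun g => by
    rw [← E.sum_comp fun i => ∑ j, g i j]
    exact sum_congr rfl fun i _ => E.sum_comp (g (E i))
  refine ⟨k * k, fun i => tst Φ lam r e (xi z₀ + 40 * L * r * (E i).1) (ups z₀ + 40 * L * r * (E i).2),
    (c₀ * (3 * ‖Δ z₀‖) * (ρ / (160 * L)) * Real.log k - C - 2) / k,
    k ^ 2 * (6 + 9 * C + 9 * C * Real.log k), fun i => ⟨?_, hq _ _ _ _ _ _ _ hΦ hr0 he0⟩,
    Nat.mul_pos hk hk, ?_, ?_, ?_⟩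
  · refine Obs.isTest hΦ lam hr0 he0 fun z h1 h2 => mem_closedBall_iff_norm.2 ?_
    have b : ∀ j : Fin k, 0 ≤ 40 * L * r * (j : ℕ) ∧ 40 * L * r * (j : ℕ) ≤ ρ := fun j => by
      have : ((j : ℕ) : ℝ) ≤ k := by exact_mod_cast j.2.le
      have h0 : 0 < L * r := by positivity
      exact ⟨by positivity, by rw [hr']; nlinarith⟩
    have b3 : 2 * L * r ≤ ρ := by
      have h0 : 0 < L * r := by positivity
      rw [hr']; nlinarith
    rw [abs_le] at h1 h2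
    have := norm_le_skew z z₀ (R := 2 * ρ)
      (abs_le.2 ⟨by linarith [h1.1, (b (E i).1).1], by linarith [h1.2, (b (E i).1).2]⟩)
      (abs_le.2 ⟨by linarith [h2.1, (b (E i).2).1], by linarith [h2.2, (b (E i).2).2]⟩)
    linarith
  · exact div_pos (by linarith) (by linarith)
  · refine (mul_le_mul_of_nonneg_left hk2 (by positivity)).trans (le_of_eq ?_)
    push_cast
    field_simp
    ring
  · filter_upwards [hloc, small_eventually (L := L) (M := 3 * M * ρ) (D := 2 * (3 * D₁ + ρ) / ρ)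
      (C := C) (CO := CO) (n₀ := n₀) hA.1 hA.2.1 hρ hr0 he0 hε0 hk] with n h1 h2
    rintro W B a T rfl rfl rfl rfl
    obtain ⟨-, h3, h4⟩ := fixed hrow hobs hL hc₀ hC hCO hD hk hkr hr0 hr' he1 (by positivity) he3
      hs2 h2 rfl h1 _ fun _ => rfl
    refine ⟨fun i => le_trans ?_ (h3 (3 * Δ z₀) (fun u hu hp => ?_) (E i)),
      (hsum _).le.trans (h4.trans (le_of_eq ?_))⟩
    · have h5 : c₀ * ‖3 * Δ z₀‖ * r * Real.log k =
          c₀ * (3 * ‖Δ z₀‖) * (ρ / (160 * L)) * Real.log k / k := by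
        rw [norm_mul, hr, Complex.norm_ofNat]; field_simp
      rw [h5, sub_div, sub_div, add_div, show (2 : ℝ) / k = 1 / k + 1 / k by ring]
      linarith
    · obtain ⟨s1, -⟩ := floor_scale h2.pos (by linarith [h2.h1, h2.pos] : δ n ≤ ρ)
      generalize ⌊ρ / δ n⌋₊ = N at *
      have h5 := skew_of_norm h2.pos (mem_box.1 hu)
      have h6 : δ n * (((4 * N : ℕ) : ℝ) + 1) ≤ 12 * ρ := by
        push_cast; linarith [h2.h1, h2.pos]
      obtain ⟨h7, h8⟩ := hQ _ ⟨h5.1.trans h6, h5.2.trans h6⟩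
      have h9 : (N : ℂ) * ∑ j : Fin 3, ((ewt c (δ n) u j - 1 : ℝ) : ℂ) * tau ^ (j : ℕ) -
          (N * δ n : ℝ) * (3 * Δ z₀) = (N * δ n : ℝ) * (3 * (Δ (bpos (δ n) u) - Δ z₀)) := by
        rw [(hc _ h7).2]
        simp only [ewt, if_pos hp, Fin.sum_univ_three, add_sub_cancel_left]
        push_cast
        simp only [Fin.val_zero, Fin.val_one, Fin.val_two]
        ring
      rw [h9, norm_mul, norm_mul, norm_mul, norm_mul, mul_div_assoc, mul_div_assoc]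
      exact mul_le_mul_of_nonneg_left (mul_le_mul_of_nonneg_left h8 (norm_nonneg _))
        (norm_nonneg _)
    · rw [hε]; field_simp; ring

end Pool.Agent.Lib.MP_60c5b4_pr.G
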