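import Mathlib

/-!
Anti-concentration: a sum of phases that all turn with an independent Gaussian variable cannot
concentrate near a fixed nonzero complex number.
-/

namespace Pool.Agent.Lib.MP_60c5b4_pr.G

open MeasureTheory ProbabilityTheory Filter Topology Complex

theorem pair_small (P : Measure ℝ) [IsProbabilityMeasure P] [NullSingletonClass P] {b : ℝ}
    (hb : b ≠ 0) {η : ℝ} (hη : 0 < η) : ∃ ε > (0 : ℝ), ε ≤ 1 ∧
      (P.prod P).real {p | ‖exp (I * (b * p.1 : ℝ)) - exp (I * (b * p.2 : ℝ))‖ ≤ ε} ≤ η := by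
  obtain ⟨A, hA⟩ : ∃ A : ℕ → Set (ℝ × ℝ), A = fun n : ℕ =>
      {p | ‖exp (I * (b * p.1 : ℝ)) - exp (I * (b * p.2 : ℝ))‖ ≤ 1 / ((n : ℝ) + 1)} := ⟨_, rfl⟩
  have hm : ∀ n, MeasurableSet (A n) := fun n => by
    rw [hA]
    exact (isClosed_le (by fun_prop) continuous_const).measurableSet
  have hanti : Antitone A := fun n n' h p hp => by
    simp only [hA, Set.mem_ofPred_eq] at hp ⊢
    exact hp.trans (Nat.one_div_le_one_div h)
  have h0 : (P.prod P) (⋂ n, A n) = 0 := by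
    rw [Measure.measure_prod_null (MeasurableSet.iInter hm)]
    refine Eventually.of_forall fun x => Set.Countable.measure_zero ?_ _
    have h1 : (exp ⁻¹' {exp (I * (b * x : ℝ))}).Countable :=
      Complex.countable_preimage_exp.2 (Set.countable_singleton _)
    have h2 : Function.Injective fun y : ℝ => I * (b * y : ℝ) := fun y y' h =>
      mul_left_cancel₀ hb (ofReal_injective (mul_left_cancel₀ I_ne_zero h))
    refine (h1.preimage h2).mono fun y hy => ?_
    have h3 : ‖exp (I * (b * x : ℝ)) - exp (I * (b * y : ℝ))‖ ≤ 0 :=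
      ge_of_tendsto' tendsto_one_div_add_atTop_nhds_zero_nat fun n => by
        have := Set.mem_iInter.1 hy n
        rwa [hA] at this
    exact (sub_eq_zero.1 (norm_le_zero_iff.1 h3)).symm
  have h1 := tendsto_measure_iInter_atTop (μ := P.prod P) (fun n => (hm n).nullMeasurableSet) hanti
    ⟨0, measure_ne_top _ _⟩
  rw [h0] at h1
  obtain ⟨n, hn⟩ := (h1.eventually (ge_mem_nhds (ENNReal.ofReal_pos.2 hη))).exists
  refine ⟨1 / ((n : ℝ) + 1), by positivity, ?_, ?_⟩
  · rw [div_le_one (by positivity)]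
    linarith [n.cast_nonneg (α := ℝ)]
  · rw [hA] at hn
    exact ENNReal.toReal_le_of_le_ofReal hη.le hn

theorem arc_small (P : Measure ℝ) [IsProbabilityMeasure P] [NullSingletonClass P] {b : ℝ}
    (hb : b ≠ 0) {η : ℝ} (hη : 0 < η) : ∃ ε > (0 : ℝ), ∀ w σ : ℂ,
      P.real {x | ‖exp (I * (b * x : ℝ)) * w - σ‖ < ε * ‖σ‖} ≤ η := by
  obtain ⟨ε, h0, h1, h2⟩ := pair_small P hb (pow_pos hη 2)
  refine ⟨ε / 4, by positivity, fun w σ => ?_⟩
  refine le_of_sq_le_sq ?_ hη.le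
  rw [sq, ← measureReal_prod_prod]
  refine le_trans (measureReal_mono ?_) h2
  rintro ⟨x, y⟩ ⟨hx, hy⟩
  simp only [Set.mem_ofPred_eq] at hx hy ⊢
  have a1 := norm_sub_norm_le σ (exp (I * (b * x : ℝ)) * w)
  rw [norm_sub_rev, norm_mul, norm_exp_I_mul_ofReal, one_mul] at a1
  have a2 := norm_sub_le (exp (I * (b * x : ℝ)) * w - σ) (exp (I * (b * y : ℝ)) * w - σ)
  rw [sub_sub_sub_cancel_right, ← sub_mul, norm_mul] at a2
  have a3 : 0 < ‖σ‖ := by
    have := (norm_nonneg _).trans_lt hx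
    exact (pos_iff_pos_of_mul_pos this).1 (by positivity)
  have a4 : ‖σ‖ / 2 ≤ ‖w‖ := by nlinarith
  by_contra hc
  push Not at hc
  nlinarith [mul_le_mul hc.le a4 (by positivity) (norm_nonneg _)]

theorem dual_form {k : ℕ} (L : StrongDual ℝ (ℝ × (Fin k → ℝ))) :
    ∃ (s : ℝ) (t : Fin k → ℝ), ∀ x z, L (x, z) = s * x + ∑ i, t i * z i := by
  refine ⟨L (1, 0), fun i => L (0, Pi.single i 1), fun x z => ?_⟩
  have h : (x, z) = x • ((1, 0) : ℝ × (Fin k → ℝ)) +
      ∑ i, z i • ((0, Pi.single i 1) : ℝ × (Fin k → ℝ)) := by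
    ext j
    · simp [Prod.fst_sum]
    · simp [Prod.snd_sum, Pi.single_apply]
  rw [h, map_add, map_sum]
  simp only [map_smul, smul_eq_mul, mul_comm]

variable {S : Type} [MeasurableSpace S] {ν : Measure S} [IsProbabilityMeasure ν] {X : S → ℝ}

theorem law_gauss (hX : Measurable X) {a v : ℝ} (hv : 0 ≤ v)
    (h : ∀ s : ℝ, ∫ x, exp (I * (s * X x : ℝ)) ∂ν = exp (I * (s * a : ℝ) - (v * s ^ 2 / 2 : ℝ))) :
    ν.map X = gaussianReal a v.toNNReal := by
  have := Measure.isProbabilityMeasure_map (μ := ν) hX.aemeasurable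
  refine Measure.ext_of_charFun (funext fun s => ?_)
  rw [charFun_gaussianReal, charFun_apply_real, integral_map hX.aemeasurable (by fun_prop),
    Real.coe_toNNReal _ hv]
  have h1 := h s
  push_cast at h1
  simpa only [mul_comm I] using h1

theorem indep_of {k : ℕ} {Z : Fin k → S → ℝ} (hX : Measurable X) (hZ : ∀ i, Measurable (Z i))
    (h : ∀ (s : ℝ) (t : Fin k → ℝ), ∫ x, exp (I * (s * X x + ∑ i, t i * Z i x : ℝ)) ∂ν =
      (∫ x, exp (I * (s * X x : ℝ)) ∂ν) * ∫ x, exp (I * (∑ i, t i * Z i x : ℝ)) ∂ν) :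
    ν.map (fun x => (X x, fun i => Z i x)) = (ν.map X).prod (ν.map fun x i => Z i x) := by
  have hZ' : Measurable fun x i => Z i x := measurable_pi_lambda _ hZ
  have := Measure.isProbabilityMeasure_map (μ := ν) hX.aemeasurable
  have := Measure.isProbabilityMeasure_map (μ := ν) hZ'.aemeasurable
  have := Measure.isProbabilityMeasure_map (μ := ν) (hX.prodMk hZ').aemeasurable
  refine charFunDual_eq_prod_iff.1 fun L => ?_
  obtain ⟨s, t, hL⟩ := dual_form L
  rw [charFunDual_apply, charFunDual_apply, charFunDual_apply,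
    integral_map (hX.prodMk hZ').aemeasurable (by fun_prop),
    integral_map hX.aemeasurable (by fun_prop), integral_map hZ'.aemeasurable (by fun_prop)]
  simp only [ContinuousLinearMap.comp_apply, ContinuousLinearMap.inl_apply,
    ContinuousLinearMap.inr_apply, hL, Pi.zero_apply, mul_zero, Finset.sum_const_zero, add_zero,
    zero_add, mul_comm _ I]
  exact h s t

theorem rot (hX : Measurable X) {a v b : ℝ} (hv : 0 < v) (hb : b ≠ 0)
    (h : ∀ s : ℝ, ∫ x, exp (I * (s * X x : ℝ)) ∂ν = exp (I * (s * a : ℝ) - (v * s ^ 2 / 2 : ℝ)))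
    {η : ℝ} (hη : 0 < η) : ∃ ε > (0 : ℝ), ∀ (k : ℕ) (Z : Fin k → S → ℝ), (∀ i, Measurable (Z i)) →
      (∀ (s : ℝ) (t : Fin k → ℝ), ∫ x, exp (I * (s * X x + ∑ i, t i * Z i x : ℝ)) ∂ν =
        (∫ x, exp (I * (s * X x : ℝ)) ∂ν) * ∫ x, exp (I * (∑ i, t i * Z i x : ℝ)) ∂ν) →
      ∀ (u : Fin k → ℂ) (σ : ℂ),
        ν.real {x | ‖∑ i, u i * exp (I * (b * X x + Z i x : ℝ)) - σ‖ < ε * ‖σ‖} ≤ η := by
  have hP := law_gauss hX hv.le h
  have := nullSingletonClass_gaussianReal (μ := a) (v := v.toNNReal) (by simpa using hv)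
  obtain ⟨ε, h0, h1⟩ := arc_small (gaussianReal a v.toNNReal) hb hη
  refine ⟨ε, h0, fun k Z hZ hi u σ => ?_⟩
  have hZ' : Measurable fun x i => Z i x := measurable_pi_lambda _ hZ
  have := Measure.isProbabilityMeasure_map (μ := ν) hZ'.aemeasurable
  obtain ⟨A, hA⟩ : ∃ A : Set (ℝ × (Fin k → ℝ)), A = {p |
      ‖exp (I * (b * p.1 : ℝ)) * ∑ i, u i * exp (I * (p.2 i : ℝ)) - σ‖ < ε * ‖σ‖} := ⟨_, rfl⟩
  have hm : MeasurableSet A := by
    rw [hA]
    exact (isOpen_lt (by fun_prop) continuous_const).measurableSet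
  have e : {x | ‖∑ i, u i * exp (I * (b * X x + Z i x : ℝ)) - σ‖ < ε * ‖σ‖} =
      (fun x => (X x, fun i => Z i x)) ⁻¹' A := by
    ext x
    rw [hA]
    simp only [Set.mem_ofPred_eq, Set.mem_preimage, ofReal_add, mul_add, Complex.exp_add,
      Finset.mul_sum, mul_left_comm (u _)]
  rw [e, Measure.real, ← Measure.map_apply (hX.prodMk hZ') hm, indep_of hX hZ hi, hP,
    Measure.prod_apply_symm hm]
  have h2 : ∀ z : Fin k → ℝ, gaussianReal a v.toNNReal ((fun x => (x, z)) ⁻¹' A) ≤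
      ENNReal.ofReal η := fun z => by
    rw [← ofReal_measureReal, hA]
    exact ENNReal.ofReal_le_ofReal (h1 (∑ i, u i * exp (I * (z i : ℝ))) σ)
  refine ENNReal.toReal_le_of_le_ofReal hη.le ((lintegral_mono h2).trans (le_of_eq ?_))
  rw [lintegral_const, measure_univ, mul_one]

end Pool.Agent.Lib.MP_60c5b4_pr.G
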