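import Pool.Agent.Lib.MP_60c5b4_pr.G.Var
import Pool.Agent.Lib.MP_60c5b4_pr.G.Rot
import Pool.Agent.Lib.MP_60c5b4_pr.G.Key

/-!
Assembly: under the Gaussian law all phases turn with one independent Gaussian mode, under the
drifted limit their sum concentrates near a nonzero number.
-/

namespace Pool.Agent.Lib.MP_60c5b4_pr.G

open Pool.Agent.Lib.MP_60c5b4_pr.H MeasureTheory Filter Topology Complex
open scoped ContDiff

variable {Ω : Set ℂ} {κ m : ℝ} {a : (ℂ → ℝ) → ℝ} {S : Type} [MeasurableSpace S]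
  {ev : (ℂ → ℝ) → S → ℝ} {ν : Measure S} {g : ℂ → ℝ}

theorem joint (hb : Bornology.IsBounded Ω) (hν : IsGFF Ω κ m a ev ν) (hg : IsTest Ω g) {k : ℕ}
    {φ : Fin k → ℂ → ℝ} (hφ : ∀ i, IsTest Ω (φ i)) {q : ℝ} (hq : ∀ i, ∫ z, φ i z * g z = q)
    (s : ℝ) (t : Fin k → ℝ) :
    ∫ x, exp (I * (s * ev (src m g) x + ∑ i, t i * ev (φ i) x : ℝ)) ∂ν =
      exp (I * (s * a (src m g) + ∑ i, t i * a (φ i) : ℝ) -
        (κ * (greenForm Ω m (fun z => ∑ i, t i * φ i z) +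
          (2 * s * ((∑ i, t i) * q) + s ^ 2 * energy m g)) / 2 : ℝ)) := by
  have h1 := hν.2 (k + 1) (Fin.cons (src m g) φ) (Fin.cons s t)
    (Fin.cases (test_src m hg) hφ)
  have h2 := green_shift hb m s (test_sum t hφ) hg
  have h3 : ∫ z, (∑ i, t i * φ i z) * g z = (∑ i, t i) * q := by
    simp only [Finset.sum_mul, mul_assoc]
    rw [integral_finsetSum _ fun i _ => (int_mul (hφ i) hg).const_mul _]
    simp only [integral_const_mul, hq]
  simp only [Fin.sum_univ_succ, Fin.cons_zero, Fin.cons_succ] at h1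
  rw [h3] at h2
  rw [h1, ← h2]
  simp only [add_comm]

theorem gff_spread (hb : Bornology.IsBounded Ω) (hκ : 0 < κ) (hν : IsGFF Ω κ m a ev ν)
    (hev : ∀ φ, IsTest Ω φ → Measurable (ev φ)) (hg : IsTest Ω g) {z₀ : ℂ} (hz : g z₀ ≠ 0) {q : ℝ}
    (hq0 : q ≠ 0) {η : ℝ} (hη : 0 < η) : ∃ ε > (0 : ℝ), ∀ (k : ℕ) (φ : Fin k → ℂ → ℝ),
      (∀ i, IsTest Ω (φ i)) → (∀ i, ∫ z, φ i z * g z = q) → ∀ (u : Fin k → ℂ) (σ : ℂ),
        ν.real {x | ‖∑ i, u i * Limit.lchr ev (φ i) x - σ‖ < ε * ‖σ‖} ≤ η := by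
  have := hν.1
  have hE := energy_pos hb m hg hz
  have hX := hev _ (test_src m hg)
  have h1 : ∀ s : ℝ, ∫ x, exp (I * (s * ev (src m g) x : ℝ)) ∂ν =
      exp (I * (s * a (src m g) : ℝ) - (κ * energy m g * s ^ 2 / 2 : ℝ)) := fun s => by
    have h := joint hb hν hg (k := 0) (φ := fun i => i.elim0) (fun i => i.elim0) (q := q)
      (fun i => i.elim0) s fun i => i.elim0
    simp only [Finset.univ_eq_empty, Finset.sum_empty, add_zero, green_zero hb, zero_mul, mul_zero,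
      zero_add] at h
    rw [h, mul_comm (s ^ 2), mul_assoc κ]
  obtain ⟨b, hb'⟩ : ∃ b, b = q / energy m g := ⟨_, rfl⟩
  have hqb : q = b * energy m g := by rw [hb']; field_simp
  obtain ⟨ε, h0, h2⟩ := rot hX (mul_pos hκ hE) (b := b) (hb' ▸ div_ne_zero hq0 hE.ne') h1 hη
  refine ⟨ε, h0, fun k φ hφ hq u σ => ?_⟩
  have h3 := h2 k (fun i x => ev (φ i) x - b * ev (src m g) x)
    (fun i => (hev _ (hφ i)).sub (hX.const_mul b)) (fun s t => by
      have e1 : ∀ x, s * ev (src m g) x + ∑ i, t i * (ev (φ i) x - b * ev (src m g) x) =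
          (s - b * ∑ i, t i) * ev (src m g) x + ∑ i, t i * ev (φ i) x := fun x => by
        simp only [mul_sub, Finset.sum_sub_distrib, ← Finset.sum_mul]
        ring
      have e2 : ∀ x, ∑ i, t i * (ev (φ i) x - b * ev (src m g) x) =
          (0 - b * ∑ i, t i) * ev (src m g) x + ∑ i, t i * ev (φ i) x := fun x => by
        simp only [mul_sub, Finset.sum_sub_distrib, ← Finset.sum_mul]
        ring
      rw [h1]
      simp only [e1]
      simp only [e2]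
      rw [joint hb hν hg hφ hq, joint hb hν hg hφ hq, ← Complex.exp_add, hqb]
      refine congrArg exp ?_
      push_cast
      ring) u σ
  simpa only [add_sub_cancel, Limit.lchr] using h3

theorem singular {lam : ℝ} {c : ℂ → Fin 3 → ℝ} {δ : ℕ → ℝ} {V : ℕ → Finset Pt} {f : ℕ → Pt}
    {μ : Measure S} (hb : Bornology.IsBounded Ω) (hκ : 0 < κ) (hν : IsGFF Ω κ m a ev ν)
    (hev : ∀ φ, IsTest Ω φ → Measurable (ev φ)) (hμ : HeightLimit Ω lam c δ V f ev μ)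
    (hs : ∃ (z₀ : ℂ) (ρ q : ℝ), 0 < ρ ∧ Metric.closedBall z₀ (2 * ρ) ⊆ Ω ∧ q ≠ 0 ∧
      ∀ η > (0 : ℝ), ∃ (k : ℕ) (φ : Fin k → ℂ → ℝ) (m₁ v : ℝ),
        (∀ i, IsTest (Metric.closedBall z₀ ρ) (φ i) ∧ ∫ z, φ i z = q) ∧ 0 < k ∧ 0 < m₁ ∧
        v ≤ η * (k * m₁) ^ 2 ∧
        ∀ᶠ n in atTop, ∀ W B a T, W = whites (V n) → B = blacks (V n) (f n) → a = ewt c (δ n) →
          T = (fun i => chr lam (δ n) W B a (φ i)) →
          (∀ i, m₁ ≤ ‖cmean W B a (T i)‖) ∧ ∑ i, ∑ j, ‖ccov W B a (T i) (T j)‖ ≤ v) :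
    μ.MutuallySingular ν := by
  have := hμ.1
  have := hν.1
  obtain ⟨z₀, ρ, q, hρ, hΩ, hq0, hs⟩ := hs
  let χ : ContDiffBump z₀ := ⟨ρ, 2 * ρ, hρ, by linarith⟩
  have hχ : IsTest Ω χ := ⟨χ.contDiff, χ.hasCompactSupport, by rw [χ.tsupport_eq]; exact hΩ⟩
  have hχ1 : ∀ z ∈ Metric.closedBall z₀ ρ, χ z = 1 := fun z hz => χ.one_of_mem_closedBall hz
  refine Limit.singular_of_cover fun η hη => ?_
  obtain ⟨ε, hε, hG⟩ := gff_spread hb hκ hν hev hχ (z₀ := z₀)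
    (by rw [hχ1 _ (Metric.mem_closedBall_self hρ.le)]; exact one_ne_zero) hq0 hη
  obtain ⟨k, φ, m₁, v, hφ', hk, hm, hv, e1⟩ := hs (ε ^ 2 * η) (by positivity)
  have hφ : ∀ i, IsTest Ω (φ i) := fun i => ⟨(hφ' i).1.1, (hφ' i).1.2.1, (hφ' i).1.2.2.trans
    ((Metric.closedBall_subset_closedBall (by linarith)).trans hΩ)⟩
  have hq : ∀ i, ∫ z, φ i z * χ z = q := fun i => by
    rw [← (hφ' i).2]
    refine integral_congr_ae (Eventually.of_forall fun z => ?_)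
    by_cases h : φ i z = 0
    · simp only [h, zero_mul]
    · simp only [hχ1 z ((hφ' i).1.2.2 (subset_tsupport _ h)), mul_one]
  replace e1 := e1.mono fun n hn => hn _ _ _ _ rfl rfl rfl rfl
  have a1 : ∀ i, m₁ ≤ ‖∫ s, Limit.lchr ev (φ i) s ∂μ‖ := fun i =>
    ge_of_tendsto (Limit.tendsto_mean hev hμ hφ i).norm (e1.mono fun n hn => hn.1 i)
  have c1 := Limit.cov_le hev hμ hφ (e1.mono fun n hn => hn.2)
  choose u hu hu' using fun i => Limit.exists_unit (∫ s, Limit.lchr ev (φ i) s ∂μ)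
  have hk' : (0 : ℝ) < k := by exact_mod_cast hk
  have s1 : k * m₁ ≤ ‖∑ i, u i * ∫ s, Limit.lchr ev (φ i) s ∂μ‖ := by
    refine le_trans ?_ (re_le_norm _)
    rw [re_sum]
    exact le_trans (by simp) (Finset.sum_le_sum fun i _ => (a1 i).trans (hu' i).ge)
  have b1 := fun d => Limit.chebyshev (μ := μ) (fun i => Limit.meas_lchr (hev _ (hφ i)))
    (fun i s => Limit.norm_lchr (φ i) s) hu c1 (d := d)
  have b2 := hG k φ hφ hq u (∑ i, u i * ∫ s, Limit.lchr ev (φ i) s ∂μ)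
  generalize ∑ i, u i * ∫ s, Limit.lchr ev (φ i) s ∂μ = σ at s1 b1 b2
  have hσ : 0 < ‖σ‖ := (mul_pos hk' hm).trans_le s1
  have hv' : v ≤ (ε * ‖σ‖) ^ 2 * η := by
    have := mul_le_mul_of_nonneg_left (pow_le_pow_left₀ (mul_pos hk' hm).le s1 2)
      (by positivity : 0 ≤ ε ^ 2 * η)
    linarith
  refine ⟨_, _, fun s => ?_,
    le_of_mul_le_mul_left ((b1 _ (by positivity)).trans hv') (by positivity), b2⟩
  simp only [Set.mem_ofPred_eq]
  exact le_or_gt _ _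

end Pool.Agent.Lib.MP_60c5b4_pr.G
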