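import Pool.Agent.Lib.MP_60c5b4_pr.G.Defs

/-!
The Green form: finiteness on bounded sets and the shift along `(-Laplacian + m ^ 2) g`.
-/

namespace Pool.Agent.Lib.MP_60c5b4_pr.G

open MeasureTheory Pool.Agent.Lib.MP_60c5b4_pr.H
open scoped ContDiff

variable {Ω : Set ℂ} {u w g φ : ℂ → ℝ}

theorem test_zero : IsTest Ω (fun _ => 0) :=
  ⟨contDiff_const, HasCompactSupport.zero, by simp⟩

theorem test_add (hu : IsTest Ω u) (hw : IsTest Ω w) : IsTest Ω (fun z => u z + w z) :=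
  ⟨hu.1.add hw.1, hu.2.1.add hw.2.1,
    (tsupport_add u w).trans (Set.union_subset hu.2.2 hw.2.2)⟩

theorem test_mul {f : ℂ → ℝ} (hf : ContDiff ℝ ∞ f) (hu : IsTest Ω u) :
    IsTest Ω (fun z => f z * u z) :=
  ⟨hf.mul hu.1, hu.2.1.mul_left, (tsupport_mul_subset_right (f := f) (g := u)).trans hu.2.2⟩

theorem test_smul (s : ℝ) (hu : IsTest Ω u) : IsTest Ω (fun z => s * u z) :=
  test_mul contDiff_const hu

theorem test_sum {k : ℕ} {φ : Fin k → ℂ → ℝ} (t : Fin k → ℝ) (h : ∀ i, IsTest Ω (φ i)) :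
    IsTest Ω (fun z => ∑ i, t i * φ i z) := by
  induction k with
  | zero => simpa using test_zero
  | succ k ih =>
    simp only [Fin.sum_univ_succ]
    exact test_add (test_smul _ (h 0)) (ih (fun i => t i.succ) fun i => h i.succ)

theorem cd_D {f : ℂ → ℝ} (hf : ContDiff ℝ ∞ f) (v : ℂ) :
    ContDiff ℝ ∞ (fun z => fderiv ℝ f z v) :=
  (hf.fderiv_right (m := ∞) (by simp)).clm_apply contDiff_const

theorem test_D (hu : IsTest Ω u) (v : ℂ) : IsTest Ω (fun z => fderiv ℝ u z v) :=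
  ⟨cd_D hu.1 v, hu.2.1.fderiv_apply ℝ v, (tsupport_fderiv_apply_subset ℝ v).trans hu.2.2⟩

theorem diff_of {f : ℂ → ℝ} (hf : ContDiff ℝ ∞ f) (z : ℂ) : DifferentiableAt ℝ f z :=
  hf.differentiable (by simp) z

theorem int_test (hu : IsTest Ω u) : Integrable u :=
  hu.1.continuous.integrable_of_hasCompactSupport hu.2.1

theorem int_mul (hu : IsTest Ω u) (hw : IsTest Ω w) : Integrable (fun z => u z * w z) :=
  int_test (test_mul hu.1 hw)

theorem int_sq (hu : IsTest Ω u) : Integrable (fun z => u z ^ 2) := by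
  simpa only [sq] using int_mul hu hu

theorem iadd {F G : ℂ → ℝ} (hF : Integrable F) (hG : Integrable G) :
    Integrable fun z => F z + G z := hF.add hG

theorem isub {F G : ℂ → ℝ} (hF : Integrable F) (hG : Integrable G) :
    Integrable fun z => F z - G z := hF.sub hG

/-- Integration by parts. -/
theorem parts {f : ℂ → ℝ} (hf : ContDiff ℝ ∞ f) (hu : IsTest Ω u) (v : ℂ) :
    ∫ z, f z * fderiv ℝ u z v = -∫ z, fderiv ℝ f z v * u z :=
  integral_mul_fderiv_eq_neg_fderiv_mul_of_integrable (int_test (test_mul (cd_D hf v) hu))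
    (int_test (test_mul hf (test_D hu v))) (int_test (test_mul hf hu))
    (fun z _ => diff_of hf z) fun z _ => diff_of hu.1 z

/-- The Poincaré inequality. -/
theorem poincare {R : ℝ} (hR : ∀ z ∈ Ω, |z.re| ≤ R) (hu : IsTest Ω u) :
    ∫ z, u z ^ 2 ≤ 4 * R ^ 2 * ∫ z, fderiv ℝ u z 1 ^ 2 := by
  have h1 := parts (f := fun z => z.re) Complex.reCLM.contDiff (test_mul hu.1 hu) 1
  have h2 : ∀ z : ℂ, fderiv ℝ (fun z : ℂ => z.re) z 1 = 1 := fun z => by
    rw [show (fun z : ℂ => z.re) = Complex.reCLM from rfl, ContinuousLinearMap.fderiv]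
    rfl
  have h3 : ∀ z : ℂ, fderiv ℝ (fun z => u z * u z) z 1 = 2 * u z * fderiv ℝ u z 1 := fun z => by
    rw [fderiv_fun_mul (diff_of hu.1 z) (diff_of hu.1 z)]
    simp only [add_apply, smul_apply, smul_eq_mul]
    ring
  simp only [h2, h3, one_mul] at h1
  simp only [← sq] at h1
  have i1 := int_sq hu
  have i2 := int_sq (test_D hu 1)
  have i3 : Integrable fun z : ℂ => -(z.re * (2 * u z * fderiv ℝ u z 1)) :=
    (int_test (test_mul Complex.reCLM.contDiff
      (test_mul (contDiff_const.mul hu.1) (test_D hu 1)))).neg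
  have h4 : ∫ z : ℂ, -(z.re * (2 * u z * fderiv ℝ u z 1)) ≤
      ∫ z, (1 / 2 * u z ^ 2 + 2 * R ^ 2 * fderiv ℝ u z 1 ^ 2) := by
    refine integral_mono i3 ((i1.const_mul _).add (i2.const_mul _)) fun z => ?_
    by_cases hz : u z = 0
    · simp only [hz]
      nlinarith [mul_nonneg (sq_nonneg R) (sq_nonneg (fderiv ℝ u z 1))]
    · have h5 := hR z (hu.2.2 (subset_tsupport u hz))
      have h6 : z.re ^ 2 ≤ R ^ 2 := by rw [← sq_abs]; exact pow_le_pow_left₀ (abs_nonneg _) h5 2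
      nlinarith [sq_nonneg (u z + 2 * z.re * fderiv ℝ u z 1),
        mul_le_mul_of_nonneg_right h6 (sq_nonneg (fderiv ℝ u z 1))]
  rw [integral_neg, h1, integral_add (i1.const_mul _) (i2.const_mul _), integral_const_mul,
    integral_const_mul] at h4
  linarith

theorem act_eq (m : ℝ) (hφ : IsTest Ω φ) (hu : IsTest Ω u) :
    act m φ u = 2 * (∫ z, φ z * u z) - (∫ z, fderiv ℝ u z 1 ^ 2) -
      (∫ z, fderiv ℝ u z Complex.I ^ 2) - m ^ 2 * ∫ z, u z ^ 2 := by
  have i0 : Integrable fun z => 2 * φ z * u z := int_mul (test_smul 2 hφ) hu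
  have i1 := int_sq (test_D hu 1)
  have i2 := int_sq (test_D hu Complex.I)
  have i3 := (int_sq hu).const_mul (m ^ 2)
  rw [act, integral_sub (isub (isub i0 i1) i2) i3, integral_sub (isub i0 i1) i2, integral_sub i0 i1,
    integral_const_mul]
  simp only [mul_assoc, integral_const_mul]

theorem act_le {R : ℝ} (hR0 : 0 < R) (hR : ∀ z ∈ Ω, |z.re| ≤ R) (m : ℝ) (hφ : IsTest Ω φ)
    (hu : IsTest Ω u) : act m φ u ≤ 4 * R ^ 2 * ∫ z, φ z ^ 2 := by
  have h1 := poincare hR hu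
  have h2 : ∫ z, 8 * R ^ 2 * (φ z * u z) ≤ ∫ z, (16 * R ^ 4 * φ z ^ 2 + u z ^ 2) :=
    integral_mono ((int_mul hφ hu).const_mul _) (((int_sq hφ).const_mul _).add (int_sq hu))
      fun z => by nlinarith [sq_nonneg (4 * R ^ 2 * φ z - u z)]
  rw [integral_add ((int_sq hφ).const_mul _) (int_sq hu), integral_const_mul,
    integral_const_mul] at h2
  have h3 : 0 ≤ ∫ z, fderiv ℝ u z Complex.I ^ 2 := integral_nonneg fun z => sq_nonneg _
  have h4 : 0 ≤ m ^ 2 * ∫ z, u z ^ 2 :=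
    mul_nonneg (sq_nonneg _) (integral_nonneg fun z => sq_nonneg _)
  rw [act_eq m hφ hu]
  have h5 : 2 * (∫ z, φ z * u z) - ∫ z, fderiv ℝ u z 1 ^ 2 ≤ 4 * R ^ 2 * ∫ z, φ z ^ 2 :=
    le_of_mul_le_mul_left (by nlinarith) (by positivity : 0 < 4 * R ^ 2)
  linarith

theorem exists_R (hb : Bornology.IsBounded Ω) : ∃ R > (0 : ℝ), ∀ z ∈ Ω, |z.re| ≤ R := by
  obtain ⟨R, h0, h⟩ := hb.exists_pos_norm_le
  exact ⟨R, h0, fun z hz => (Complex.abs_re_le_norm z).trans (h z hz)⟩

theorem act_le_green (hb : Bornology.IsBounded Ω) (m : ℝ) (hφ : IsTest Ω φ) (hu : IsTest Ω u) :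
    act m φ u ≤ greenForm Ω m φ := by
  obtain ⟨R, h0, h⟩ := exists_R hb
  exact le_csSup ⟨_, by rintro _ ⟨w, hw, rfl⟩; exact act_le h0 h m hφ hw⟩ ⟨u, hu, rfl⟩

theorem green_le (m : ℝ) {c : ℝ} (h : ∀ u, IsTest Ω u → act m φ u ≤ c) : greenForm Ω m φ ≤ c :=
  csSup_le ⟨_, _, test_zero, rfl⟩ (by rintro _ ⟨w, hw, rfl⟩; exact h w hw)

theorem green_zero (hb : Bornology.IsBounded Ω) (m : ℝ) : greenForm Ω m (fun _ => 0) = 0 := by
  obtain ⟨R, h0, h⟩ := exists_R hb
  refine le_antisymm (green_le m fun u hu => ?_) ?_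
  · simpa using act_le h0 h m test_zero hu
  · simpa [act] using act_le_green hb m test_zero (test_zero (Ω := Ω))

/-- The function `(-Laplacian + m ^ 2) g`. -/
noncomputable def src (m : ℝ) (g : ℂ → ℝ) (z : ℂ) : ℝ :=
  -1 * fderiv ℝ (fun z => fderiv ℝ g z 1) z 1 +
    -1 * fderiv ℝ (fun z => fderiv ℝ g z Complex.I) z Complex.I + m ^ 2 * g z

/-- The energy of `g`. -/
noncomputable def energy (m : ℝ) (g : ℂ → ℝ) : ℝ :=
  (∫ z, fderiv ℝ g z 1 ^ 2) + (∫ z, fderiv ℝ g z Complex.I ^ 2) + m ^ 2 * ∫ z, g z ^ 2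

theorem test_src (m : ℝ) (hg : IsTest Ω g) : IsTest Ω (src m g) :=
  test_add (test_add (test_smul _ (test_D (test_D hg _) _)) (test_smul _ (test_D (test_D hg _) _)))
    (test_smul _ hg)

theorem src_mul (m : ℝ) (hg : IsTest Ω g) (hu : IsTest Ω u) :
    ∫ z, src m g z * u z = (∫ z, fderiv ℝ g z 1 * fderiv ℝ u z 1) +
      (∫ z, fderiv ℝ g z Complex.I * fderiv ℝ u z Complex.I) + m ^ 2 * ∫ z, g z * u z := by
  have i1 := (int_mul (test_D (test_D hg 1) 1) hu).const_mul (-1)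
  have i2 := (int_mul (test_D (test_D hg Complex.I) Complex.I) hu).const_mul (-1)
  have i3 := (int_mul hg hu).const_mul (m ^ 2)
  rw [parts (cd_D hg.1 1) hu, parts (cd_D hg.1 Complex.I) hu]
  simp only [src, add_mul, mul_assoc]
  rw [integral_add (iadd i1 i2) i3, integral_add i1 i2, integral_const_mul, integral_const_mul,
    integral_const_mul]
  ring

theorem int_lin (hu : IsTest Ω u) (hg : IsTest Ω g) (hφ : IsTest Ω φ) (hw : IsTest Ω w) (s : ℝ) :
    ∫ z, (u z + s * g z) * (φ z + s * w z) = (∫ z, u z * φ z) + s * (∫ z, u z * w z) +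
      s * (∫ z, g z * φ z) + s ^ 2 * ∫ z, g z * w z := by
  have i0 := int_mul hu hφ
  have i1 := (int_mul hu hw).const_mul s
  have i2 := (int_mul hg hφ).const_mul s
  have i3 := (int_mul hg hw).const_mul (s ^ 2)
  rw [← integral_const_mul, ← integral_const_mul, ← integral_const_mul, ← integral_add i0 i1,
    ← integral_add (iadd i0 i1) i2, ← integral_add (iadd (iadd i0 i1) i2) i3]
  exact integral_congr_ae (Filter.Eventually.of_forall fun z => by ring)

theorem D_lin (hu : IsTest Ω u) (hg : IsTest Ω g) (s : ℝ) (z v : ℂ) :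
    fderiv ℝ (fun z => u z + s * g z) z v = fderiv ℝ u z v + s * fderiv ℝ g z v := by
  rw [fderiv_fun_add (diff_of hu.1 z) (diff_of (test_smul s hg).1 z),
    fderiv_const_mul (diff_of hg.1 z)]
  rfl

theorem act_shift (m s : ℝ) (hφ : IsTest Ω φ) (hg : IsTest Ω g) (hu : IsTest Ω u) :
    act m (fun z => φ z + s * src m g z) (fun z => u z + s * g z) =
      act m φ u + (2 * s * (∫ z, φ z * g z) + s ^ 2 * energy m g) := by
  rw [act_eq m (test_add hφ (test_smul s (test_src m hg))) (test_add hu (test_smul s hg)),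
    act_eq m hφ hu, energy]
  simp only [D_lin hu hg, sq]
  rw [int_lin hφ (test_src m hg) hu hg, int_lin (test_D hu 1) (test_D hg 1) (test_D hu 1)
    (test_D hg 1), int_lin (test_D hu _) (test_D hg _) (test_D hu _) (test_D hg _),
    int_lin hu hg hu hg, src_mul m hg hu, src_mul m hg hg]
  simp only [mul_comm (u _) (g _), mul_comm (fderiv ℝ u _ _) (fderiv ℝ g _ _)]
  ring

theorem green_shift (hb : Bornology.IsBounded Ω) (m s : ℝ) (hφ : IsTest Ω φ) (hg : IsTest Ω g) :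
    greenForm Ω m (fun z => φ z + s * src m g z) =
      greenForm Ω m φ + (2 * s * (∫ z, φ z * g z) + s ^ 2 * energy m g) := by
  refine le_antisymm (green_le m fun w hw => ?_) ?_
  · have hu := test_add hw (test_smul (-s) hg)
    have h1 := act_shift m s hφ hg hu
    simp only [neg_mul, neg_add_cancel_right] at h1
    have h2 := act_le_green hb m hφ hu
    simp only [neg_mul] at h2
    rw [h1]
    linarith
  · rw [← le_sub_iff_add_le]
    refine green_le m fun u hu => ?_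
    rw [le_sub_iff_add_le, ← act_shift m s hφ hg hu]
    exact act_le_green hb m (test_add hφ (test_smul s (test_src m hg)))
      (test_add hu (test_smul s hg))

theorem energy_pos (hb : Bornology.IsBounded Ω) (m : ℝ) (hg : IsTest Ω g) {z : ℂ}
    (hz : g z ≠ 0) : 0 < energy m g := by
  obtain ⟨R, h0, h⟩ := exists_R hb
  have h1 := poincare h hg
  have h2 : 0 < ∫ z, g z ^ 2 := by
    refine Continuous.integral_pos_of_hasCompactSupport_nonneg_nonzero (x := z)
      (hg.1.continuous.pow 2) ?_ (fun z => sq_nonneg _) (pow_ne_zero 2 hz)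
    simpa only [sq] using (test_mul hg.1 hg).2.1
  have h3 : 0 < ∫ z, fderiv ℝ g z 1 ^ 2 :=
    (pos_iff_pos_of_mul_pos (h2.trans_le h1)).1 (by positivity)
  have h4 : 0 ≤ ∫ z, fderiv ℝ g z Complex.I ^ 2 := integral_nonneg fun z => sq_nonneg _
  have h5 := mul_nonneg (sq_nonneg m) h2.le
  rw [energy]
  linarith

end Pool.Agent.Lib.MP_60c5b4_pr.G
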